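import Pool.Agent.KS6_77.JetT

/-!
MP_e120ef_ag, Q1: multivalued jet differentials with logarithmic or orbifold poles and analytic maps
from algebraic groups.

Setting. `S.K` is algebraically closed of characteristic zero and complete for a nontrivial
ultrametric absolute value. The group `G` is the product over `i : S.ι` of an additive group (for
`i ∈ S.v`) or a multiplicative group (for `i ∉ S.v`). The analytic functions `S.h` give an analytic
map from `G` to a projective space, outside of a set of codimension two (`S.Wide`); `X` is the
Zariski closure of its image, `S.L` the function field of `X` and `S.chart i` the coordinate rings
of its affine charts. There is no condition on `X` or on the rank of the map. `S.IsJet D i` contains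
the pullbacks of the jet differentials of all orders on the chart, also those with logarithmic poles
along divisors which the map avoids, and those with fractional poles (in the sense of Campana's
orbifolds) along divisors `x = 0` whose pullback has high multiplicities: for instance
`(D x / x) ^ m * x ^ e` if all components of the pullback have multiplicity at least `m / e`.
-/

namespace Pool.Agent.Results.MP_e120ef_ag.JetDifferentials

open Pool.Agent.KS6_77

universe u w

/-- Let `z` be an element of an extension `E` of the field of meromorphic functions on the group
which on each chart is integral over the pullbacks of logarithmic or orbifold jet differentials, of
any order, to the group. Then `z` is constant. If on each chart it is a root of a monic polynomial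
whose other coefficients are in the ideal generated by the jet differentials with a derivative in
the direction of an additive factor of the group, then `z = 0`. -/
theorem result (S : AnMap.{u}) (hB : S.Wide) (D : S.ι → S.M → S.M) (hD : S.IsInv D)
    (E : Type w) [Field E] (j : S.M →+* E) (z : E)
    (hz : ∀ i, S.h i ≠ 0 → RootOf j {y | S.IsJet D i y} z) :
    ∃ c : S.K, z = j (algebraMap S.K S.M c) ∧
      ((∀ i, S.h i ≠ 0 → RootOf j {y | S.IsAddJet D i y} z) → z = 0) :=
  transfer_jets S hB D hD E j z hz

end Pool.Agent.Results.MP_e120ef_ag.JetDifferentials
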