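import Pool.Agent.KS6_77.Transfer2

/-!
MP_e120ef_ag, Q1: multivalued tensor differentials on the closure of the image of an analytic map
from an algebraic group.

Setting. `S.K` is algebraically closed of characteristic zero and complete for a nontrivial
ultrametric absolute value. The group `G` is the product over `i : S.ι` of an additive group (for
`i ∈ S.v`) or a multiplicative group (for `i ∉ S.v`). The analytic functions `S.h` give an analytic
map from `G` to a projective space, outside of a set of codimension two (`S.Wide`); `X` is the
Zariski closure of its image, `S.L` the function field of `X` and `S.chart i` the coordinate rings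
of its affine charts. A finite extension `C.F` of the function field gives a finite cover `X'` of `X`; `C.IsReg` says that an element of `C.Tens m` is a section on `X'`
of the pullback of the `m`-th tensor power of the differentials on `X`, modulo torsion: a
multivalued regular tensor differential on `X`. For example, the eigenvalues of a Higgs field on `X`
are such sections for `m = 1` on the spectral cover.
-/

namespace Pool.Agent.Results.MP_e120ef_ag.SpectralCovers

open Pool.Agent.KS6_77

universe u

/-- If the analytic map is generically submersive onto the Zariski closure `X` of its image, then
for each `m` there is one finite Galois cover `N` of `X` such that the analytic map lifts to `N`, the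
Galois group is a group of matrices over `K` of size at most `(min a (dim X)) ^ m`, where `a` is the
number of multiplicative factors of the group, and all regular tensor differentials of degree `m` on
all finite covers `C` of `X` have their coefficients in a subfield of `C.F` that is contained in the
function field of `N`. -/
theorem result (S : AnMap.{u}) (hB : S.Wide) (hs : S.Submersive) (m : ℕ) :
    ∃ N : S.Cover, IsGalois S.L N.F ∧
      (∃ ρ : N.F →+* S.M, ∀ x, ρ (algebraMap S.L N.F x) = S.emb x) ∧
      (∃ (d : ℕ) (γ : (N.F ≃ₐ[S.L] N.F) →* GL (Fin d) S.K), Function.Injective γ ∧
        d ≤ min (Nat.card ↥(S.vᶜ)) (Cardinal.toNat (Algebra.trdeg S.K S.L)) ^ m) ∧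
      ∀ (C : S.Cover) (x : C.Tens m), C.IsReg x →
        ∃ F' : IntermediateField S.L C.F, Nonempty (F' →ₐ[S.L] N.F) ∧
          ∃ (n : ℕ) (b : Fin n → C.F) (f : Fin n → Fin m → S.L),
            (∀ t, b t ∈ F') ∧ x = ∑ t, C.pure (b t) (f t) :=
  transfer_spectral S hB hs m

end Pool.Agent.Results.MP_e120ef_ag.SpectralCovers
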