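import Pool.Agent.KS6_77.Transfer3

/-!
MP_e120ef_ag, Q1: tensor differentials on finite covers of the closure of the image of an analytic
map from an algebraic group.

Setting. `S.K` is algebraically closed of characteristic zero and complete for a nontrivial
ultrametric absolute value. The group `G` is the product over `i : S.ι` of an additive group (for
`i ∈ S.v`) or a multiplicative group (for `i ∉ S.v`). The analytic functions `S.h` give an analytic
map from `G` to a projective space, outside of a set of codimension two (`S.Wide`); `X` is the
Zariski closure of its image, `S.L` the function field of `X` and `S.chart i` the coordinate rings
of its affine charts; there are no conditions on `X` and on the rank of the map. A finite extension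
`C.F` of the function field gives a finite cover `X'` of `X`; `C.IsReg` says that an element of
`C.Tens m` is a section on `X'` of the pullback of the `m`-th tensor power of the differentials on
`X`, modulo torsion (for etale covers: a tensor differential on `X'`). The fields `S.M` of
meromorphic functions on the group and `C.F` are embedded in a common extension `E` of `S.L`, that
is, a point of the fibre product of `X'` and the group over `X` is chosen.
-/

namespace Pool.Agent.Results.MP_e120ef_ag.TensorDifferentials

open Pool.Agent.KS6_77

universe u w

/-- Regular tensor differentials of degree `m` on a finite cover `X'` of `X` which are independent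
over `K` modulo those that vanish along the map are independent over the function field of `X'`
modulo those that vanish along the map, and their number is at most `(min a r) ^ m`, where `a` is the
number of multiplicative factors of the group and `r` is the rank of the map. If the map is
generically submersive onto `X`, then only the zero tensor differential vanishes along the map. -/
theorem result (S : AnMap.{u}) (hB : S.Wide) (D : S.ι → S.M → S.M) (hD : S.IsInv D)
    (C : S.Cover) (E : Type w) [Field E] (i : S.M →+* E) (j : C.F →+* E)
    (hij : ∀ x, j (algebraMap S.L C.F x) = i (S.emb x)) (m n : ℕ) (w : Fin n → C.Tens m)
    (hw : ∀ t, C.IsReg (w t))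
    (hK : ∀ a : Fin n → S.K, C.Null D i j (∑ t, a t • w t) → a = 0) :
    (∀ a : Fin n → C.F, C.Null D i j (∑ t, a t • w t) → a = 0) ∧
      n ≤ min (Nat.card ↥(S.vᶜ)) (S.rank D) ^ m ∧
      (S.Submersive → ∀ x : C.Tens m, C.Null D i j x → x = 0) :=
  transfer_along S hB D hD C E i j hij m n w hw hK

end Pool.Agent.Results.MP_e120ef_ag.TensorDifferentials
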